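import Mathlib
import Pool.Agent.Q117.NE.Final

/-!
# Every minimal non-Engel variety of associative rings is a Cross variety

All notions (expressions, identities, varieties, Engel varieties, minimal non-Engel varieties,
critical rings, Cross varieties) are defined in `Pool/Agent/H854R3/NE/Basic.lean`. The rings are
associative and not necessarily unital. A variety is given by its set `E` of identities.
-/

set_option autoImplicit false

namespace Pool.Agent.Results.MP_a5aec7_al.MinimalNonEngelCross

open Pool.Agent.H854R3.NE

/-- Every minimal non-Engel variety of associative rings is a Cross variety. -/
theorem result (E : Set (RTerm × RTerm)) (hE : MinimalNonEngel E) : IsCross E :=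
  Pool.Agent.Q117.NE.cross_of_minimal E hE

end Pool.Agent.Results.MP_a5aec7_al.MinimalNonEngelCross
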